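import Pool.Agent.H14.U.FixA

/-!
# Project U, FIX: the fixed point theorem
-/

namespace Pool.Agent.H14.U

open Pool.Agent.H26.U Finset

variable {n : ℕ} [NeZero n] {J : ℕ}

/-- the sum of the squares of the sines -/
noncomputable def DD (c : Fin J → ZMod n) (x : ZMod n) : ℝ := ∑ j, sz (c j * x ^ 2) ^ 2

theorem DD_zero (c : Fin J → ZMod n) : DD c 0 = 0 := by simp [DD, sz_zero]

omit [NeZero n] in
theorem DD_nonneg (c : Fin J → ZMod n) (x : ZMod n) : 0 ≤ DD c x :=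
  sum_nonneg fun _ _ => sq_nonneg _

omit [NeZero n] in
theorem DD_neg (c : Fin J → ZMod n) (x : ZMod n) : DD c (-x) = DD c x := by simp [DD]

/-- the coefficients -/
noncomputable def gg (c : Fin J → ZMod n) (v : EuclideanSpace ℂ (ZMod n)) (j : Fin J)
    (x : ZMod n) : ℂ := ((√n * (sz (c j * x ^ 2) / √(DD c x)) : ℝ) : ℂ) * v x

/-- the phases -/
noncomputable def psi (c : Fin J → ZMod n) (b : ℝ) (v : EuclideanSpace ℂ (ZMod n)) (j : Fin J)
    (y : ZMod n) : ℝ := -(1 / (2 * n * b)) * (∑ x, gg c v j x * ez (-(2 * c j * x * y))).re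

omit [NeZero n] in
theorem gg_sub (c : Fin J → ZMod n) (v w : EuclideanSpace ℂ (ZMod n)) (j : Fin J) (x : ZMod n) :
    gg c v j x - gg c w j x = gg c (v - w) j x := by
  simp only [gg, PiLp.sub_apply]
  ring

theorem psi_sub (c : Fin J → ZMod n) (b : ℝ) (v w : EuclideanSpace ℂ (ZMod n)) (j : Fin J)
    (y : ZMod n) : psi c b v j y - psi c b w j y = psi c b (v - w) j y := by
  simp only [psi]
  rw [← mul_sub, ← Complex.sub_re, ← sum_sub_distrib]
  congr 2
  apply sum_congr rfl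
  intro x _
  rw [← sub_mul, gg_sub]

theorem psi_zero (c : Fin J → ZMod n) (b : ℝ) : psi c b 0 = fun _ _ => 0 := by
  funext j y
  simp [psi, gg]

omit [NeZero n] in
theorem norm_gg (c : Fin J → ZMod n) (v : EuclideanSpace ℂ (ZMod n)) (j : Fin J) (x : ZMod n) :
    ‖gg c v j x‖ ^ 2 = n * (sz (c j * x ^ 2) ^ 2 / DD c x) * ‖v x‖ ^ 2 := by
  rw [gg, norm_mul, Complex.norm_real, mul_pow, Real.norm_eq_abs, sq_abs, mul_pow, div_pow,
    Real.sq_sqrt (Nat.cast_nonneg n), Real.sq_sqrt (DD_nonneg c x)]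

theorem psi_sum (hn : Odd n) (c : Fin J → ZMod n) (hc : ∀ j, IsUnit (c j)) {b : ℝ} (hb : 0 < b)
    (v : EuclideanSpace ℂ (ZMod n)) : ∑ j, ∑ y, psi c b v j y ^ 2 ≤ (‖v‖ / (2 * b)) ^ 2 := by
  have hn0 : (0 : ℝ) < n := by exact_mod_cast Nat.pos_of_ne_zero (NeZero.ne n)
  have h1 : ∀ j, ∑ y, psi c b v j y ^ 2 ≤
      (1 / (2 * n * b)) ^ 2 * (n * ∑ x, ‖gg c v j x‖ ^ 2) := by
    intro j
    have ha : IsUnit (-(2 * c j)) := ((isUnit_two hn).mul (hc j)).neg
    rw [← parseval _ ha (gg c v j), mul_sum]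
    apply sum_le_sum
    intro y _
    have e : ∀ x : ZMod n, -(2 * c j * x * y) = -(2 * c j) * x * y := fun x => by ring
    simp only [psi, e]
    rw [mul_pow, neg_sq]
    apply mul_le_mul_of_nonneg_left _ (sq_nonneg _)
    rw [← sq_abs]
    exact pow_le_pow_left₀ (abs_nonneg _) (Complex.abs_re_le_norm _) 2
  calc _ ≤ ∑ j, (1 / (2 * n * b)) ^ 2 * (n * ∑ x, ‖gg c v j x‖ ^ 2) := sum_le_sum fun j _ => h1 j
    _ = (1 / (2 * n * b)) ^ 2 * n * ∑ x, ∑ j, ‖gg c v j x‖ ^ 2 := by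
        rw [sum_comm, mul_sum]
        apply sum_congr rfl
        intro j _
        ring
    _ ≤ (1 / (2 * n * b)) ^ 2 * n * ∑ x, n * ‖v x‖ ^ 2 := by
        apply mul_le_mul_of_nonneg_left _ (by positivity)
        apply sum_le_sum
        intro x _
        simp only [norm_gg]
        rw [← sum_mul, ← mul_sum, ← sum_div]
        apply mul_le_mul_of_nonneg_right _ (sq_nonneg _)
        have : (∑ j, sz (c j * x ^ 2) ^ 2) / DD c x ≤ 1 := div_self_le_one _
        calc (n : ℝ) * ((∑ j, sz (c j * x ^ 2) ^ 2) / DD c x) ≤ n * 1 :=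
              mul_le_mul_of_nonneg_left this hn0.le
          _ = n := mul_one _
    _ = (‖v‖ / (2 * b)) ^ 2 := by
        rw [← mul_sum, ← EuclideanSpace.norm_sq_eq]
        field_simp

/-- the constant -/
noncomputable def AA (c : Fin J → ZMod n) : ℝ := ∑ x, 1 / (n * DD c x)

theorem AA_nonneg (c : Fin J → ZMod n) : 0 ≤ AA c :=
  sum_nonneg fun x _ => by have := DD_nonneg c x; positivity

/-- the map -/
noncomputable def NN (c : Fin J → ZMod n) (b : ℝ) (r0 : ZMod n → ℂ)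
    (v : EuclideanSpace ℂ (ZMod n)) : EuclideanSpace ℂ (ZMod n) :=
  WithLp.toLp 2 (fun x => (r0 x + b * quad c (psi c b v) x) / ((√(n * DD c x) : ℝ) : ℂ))

theorem NN_apply (c : Fin J → ZMod n) (b : ℝ) (r0 : ZMod n → ℂ)
    (v : EuclideanSpace ℂ (ZMod n)) (x : ZMod n) : NN c b r0 v x =
    (r0 x + b * quad c (psi c b v) x) / ((√(n * DD c x) : ℝ) : ℂ) := rfl

theorem NN_lip (hn : Odd n) (c : Fin J → ZMod n) (hc : ∀ j, IsUnit (c j)) {b : ℝ} (hb : 0 < b)
    (r0 : ZMod n → ℂ) (v w : EuclideanSpace ℂ (ZMod n)) :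
    ‖NN c b r0 v - NN c b r0 w‖ ≤ √(AA c) / b * (‖v‖ + ‖w‖) * ‖v - w‖ := by
  have hL : ∀ x, ‖quad c (psi c b v) x - quad c (psi c b w) x‖ ≤
      ‖v - w‖ * (‖v‖ + ‖w‖) / b ^ 2 := by
    intro x
    have h := quad_lip c (psi c b v) (psi c b w) x (a := ‖v‖ / (2 * b)) (b := ‖w‖ / (2 * b))
      (d := ‖v - w‖ / (2 * b)) (by positivity) (by positivity) (by positivity)
      (psi_sum hn c hc hb v) (psi_sum hn c hc hb w) (by
        simp only [psi_sub]
        exact psi_sum hn c hc hb (v - w))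
    refine h.trans (le_of_eq ?_)
    field_simp
    ring
  apply le_of_sq_le_sq _ (by positivity)
  rw [EuclideanSpace.norm_sq_eq]
  calc _ ≤ ∑ x, (‖v - w‖ * (‖v‖ + ‖w‖) / b) ^ 2 * (1 / (n * DD c x)) := by
        apply sum_le_sum
        intro x _
        rw [PiLp.sub_apply, NN_apply, NN_apply, ← sub_div, norm_div, div_pow, Complex.norm_real,
          Real.norm_eq_abs, sq_abs, Real.sq_sqrt (by have := DD_nonneg c x; positivity),
          mul_one_div]
        apply div_le_div_of_nonneg_right _ (by have := DD_nonneg c x; positivity)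
        apply pow_le_pow_left₀ (norm_nonneg _)
        rw [add_sub_add_left_eq_sub, ← mul_sub, norm_mul, Complex.norm_real, Real.norm_eq_abs,
          abs_of_pos hb]
        calc _ ≤ b * (‖v - w‖ * (‖v‖ + ‖w‖) / b ^ 2) := mul_le_mul_of_nonneg_left (hL x) hb.le
          _ = _ := by field_simp
    _ = (‖v - w‖ * (‖v‖ + ‖w‖) / b) ^ 2 * AA c := by rw [← mul_sum, AA]
    _ = (√(AA c) / b * (‖v‖ + ‖w‖) * ‖v - w‖) ^ 2 := by
        have hs : √(AA c) ^ 2 = AA c := Real.sq_sqrt (AA_nonneg c)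
        have e : (√(AA c) / b * (‖v‖ + ‖w‖) * ‖v - w‖) ^ 2 =
            (‖v - w‖ * (‖v‖ + ‖w‖) / b) ^ 2 * √(AA c) ^ 2 := by ring
        rw [e, hs]

theorem NN_zero (c : Fin J → ZMod n) (b : ℝ) (r0 : ZMod n → ℂ) {R : ℝ} (hR0 : 0 ≤ R)
    (hR : ∀ x, x ≠ 0 → ‖r0 x‖ ≤ R) : ‖NN c b r0 0‖ ≤ R * √(AA c) := by
  apply le_of_sq_le_sq _ (by positivity)
  rw [EuclideanSpace.norm_sq_eq, mul_pow, Real.sq_sqrt (AA_nonneg c), AA, mul_sum]
  apply sum_le_sum
  intro x _
  rw [NN_apply, psi_zero, quad_zero, mul_zero, add_zero, norm_div, div_pow, Complex.norm_real,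
    Real.norm_eq_abs, sq_abs, Real.sq_sqrt (by have := DD_nonneg c x; positivity), mul_one_div]
  by_cases hx : x = 0
  · subst hx
    rw [DD_zero]
    simp
  · apply div_le_div_of_nonneg_right _ (by have := DD_nonneg c x; positivity)
    exact pow_le_pow_left₀ (norm_nonneg _) (hR x hx) 2

theorem exists_fixed (hn : Odd n) (c : Fin J → ZMod n) (hc : ∀ j, IsUnit (c j)) {b : ℝ}
    (hb : 0 < b) (r0 : ZMod n → ℂ) {R : ℝ} (hR0 : 0 ≤ R) (hR : ∀ x, x ≠ 0 → ‖r0 x‖ ≤ R)
    (hB : 4 * R * AA c < b) : ∃ v : EuclideanSpace ℂ (ZMod n), NN c b r0 v = v := by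
  have hA := AA_nonneg c
  set ρ := R * √(AA c) with hρ
  have hρ0 : 0 ≤ ρ := by positivity
  have hK0 : 0 ≤ 4 * R * AA c / b := by positivity
  have hK1 : 4 * R * AA c / b < 1 := by rw [div_lt_one hb]; exact hB
  have hsq : √(AA c) * √(AA c) = AA c := Real.mul_self_sqrt hA
  have hlip : ∀ v w : EuclideanSpace ℂ (ZMod n), ‖v‖ ≤ 2 * ρ → ‖w‖ ≤ 2 * ρ →
      ‖NN c b r0 v - NN c b r0 w‖ ≤ 4 * R * AA c / b * ‖v - w‖ := by
    intro v w hv hw
    refine (NN_lip hn c hc hb r0 v w).trans ?_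
    apply mul_le_mul_of_nonneg_right _ (norm_nonneg _)
    calc √(AA c) / b * (‖v‖ + ‖w‖) ≤ √(AA c) / b * (4 * ρ) := by
          apply mul_le_mul_of_nonneg_left _ (by positivity)
          linarith
      _ = 4 * R * (√(AA c) * √(AA c)) / b := by rw [hρ]; ring
      _ = _ := by rw [hsq]
  have hmaps : Set.MapsTo (NN c b r0) (Metric.closedBall 0 (2 * ρ)) (Metric.closedBall 0 (2 * ρ)) := by
    intro v hv
    rw [mem_closedBall_zero_iff] at hv ⊢
    have h1 : ‖NN c b r0 v‖ ≤ ‖NN c b r0 0‖ + ‖NN c b r0 v - NN c b r0 0‖ := by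
      have := norm_add_le (NN c b r0 0) (NN c b r0 v - NN c b r0 0)
      rwa [add_sub_cancel] at this
    have h2 := NN_zero c b r0 hR0 hR
    have h3 := NN_lip hn c hc hb r0 v 0
    rw [norm_zero, add_zero, sub_zero] at h3
    have h4 : √(AA c) / b * ‖v‖ * ‖v‖ ≤ √(AA c) / b * (2 * ρ) * (2 * ρ) := by
      have hq : 0 ≤ √(AA c) / b := by positivity
      have := norm_nonneg v
      apply mul_le_mul (mul_le_mul_of_nonneg_left hv hq) hv (norm_nonneg _)
      positivity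
    have h5 : √(AA c) / b * (2 * ρ) * (2 * ρ) = ρ * (4 * R * AA c / b) := by
      calc √(AA c) / b * (2 * ρ) * (2 * ρ) = ρ * (4 * R * (√(AA c) * √(AA c)) / b) := by
            rw [hρ]; ring
        _ = _ := by rw [hsq]
    have h6 : ρ * (4 * R * AA c / b) ≤ ρ * 1 := mul_le_mul_of_nonneg_left hK1.le hρ0
    linarith
  have hcontr : ContractingWith ⟨4 * R * AA c / b, hK0⟩
      (hmaps.restrict (NN c b r0) (Metric.closedBall 0 (2 * ρ)) (Metric.closedBall 0 (2 * ρ))) := by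
    refine ⟨?_, LipschitzWith.of_dist_le_mul ?_⟩
    · rw [← NNReal.coe_lt_coe]
      exact hK1
    · intro v w
      have hv : ‖(v : EuclideanSpace ℂ (ZMod n))‖ ≤ 2 * ρ := mem_closedBall_zero_iff.mp v.2
      have hw : ‖(w : EuclideanSpace ℂ (ZMod n))‖ ≤ 2 * ρ := mem_closedBall_zero_iff.mp w.2
      have := hlip v w hv hw
      rw [Subtype.dist_eq, Subtype.dist_eq, dist_eq_norm, dist_eq_norm]
      exact this
  obtain ⟨v, _, hv, _⟩ := hcontr.exists_fixedPoint' (Metric.isClosed_closedBall.isComplete)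
    hmaps (x := 0) (by simp [hρ0]) (edist_ne_top _ _)
  exact ⟨v, hv⟩

theorem FIX (hE : S_EXP) : S_FIX := by
  intro n _ hn J B c hc hD r0 hr0 R hR hB
  by_cases hn1 : n = 1
  · subst hn1
    exact ⟨fun _ _ => 0, fun x hx => absurd (Subsingleton.elim x 0) hx⟩
  have hn2 : Fact (1 < n) := ⟨by have := NeZero.ne n; omega⟩
  have hR0 : 0 ≤ R := (norm_nonneg _).trans (hR 1 one_ne_zero)
  have hn0 : (0 : ℝ) < n := by exact_mod_cast Nat.pos_of_ne_zero (NeZero.ne n)
  have hAA : 1 / (n : ℝ) * ∑ x ∈ univ.erase (0 : ZMod n), 1 / ∑ j, sz (c j * x ^ 2) ^ 2 = AA c := by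
    rw [AA, ← Finset.add_sum_erase univ _ (mem_univ (0 : ZMod n)), DD_zero, mul_sum]
    simp only [mul_zero, div_zero, zero_add]
    apply sum_congr rfl
    intro x _
    rw [DD]
    rw [one_div_mul_one_div]
  rw [hAA] at hB
  have hb : (0 : ℝ) < B := by
    have := AA_nonneg c
    have h : 0 ≤ 4 * R * AA c := by positivity
    linarith
  obtain ⟨v, hv⟩ := exists_fixed hn c hc hb r0 hR0 hR hB
  have hvx : ∀ x, v x = (r0 x + (B : ℝ) * quad c (psi c B v) x) / ((√(n * DD c x) : ℝ) : ℂ) := by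
    intro x
    conv_lhs => rw [← hv]
    rfl
  have hsym : ∀ x, v (-x) = star (v x) := by
    intro x
    rw [hvx, hvx x, hr0, quad_neg, DD_neg]
    simp only [Complex.star_def, map_div₀, map_add, map_mul, Complex.conj_ofReal]
  have hg : ∀ j x, gg c v j (-x) = star (gg c v j x) := by
    intro j x
    simp only [gg, hsym, DD_neg, neg_sq]
    simp only [Complex.star_def, map_mul, Complex.conj_ofReal]
  have hre : ∀ j y, (((∑ x, gg c v j x * ez (-(2 * c j * x * y))).re : ℝ) : ℂ) =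
      ∑ x, gg c v j x * ez (-(2 * c j * x * y)) := by
    intro j y
    apply Complex.conj_eq_iff_re.mp
    rw [map_sum]
    apply Fintype.sum_equiv (Equiv.neg (ZMod n))
    intro x
    have e : ∀ z : ℂ, (starRingEnd ℂ) z = star z := fun z => rfl
    simp only [Equiv.neg_apply, hg, e]
    rw [star_mul', ← ez_neg]
    congr 2
    ring
  refine ⟨psi c B v, fun x hx => ?_⟩
  have hDx : 0 < DD c x := hD x hx
  have hacf : ∀ j, acf (fun y : ZMod n => ez (c j * y ^ 2) *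
      Complex.exp (Complex.I * psi c B v j y)) x =
      -(1 / (B : ℝ) : ℂ) * ((sz (c j * x ^ 2) : ℂ) * gg c v j x) +
      ∑ y, ez (c j * (2 * x * y - x ^ 2)) * rem (psi c B v j y - psi c B v j (y - x)) := by
    intro j
    rw [hE n hn (c j) (hc j) (psi c B v j) x hx]
    congr 1
    have hlin : ∑ y, (psi c B v j y : ℂ) * ez (2 * c j * x * y) =
        -(1 / (2 * (n : ℝ) * (B : ℝ)) : ℂ) * (n * gg c v j x) := by
      rw [← invert (2 * c j) ((isUnit_two hn).mul (hc j)) (gg c v j) x, mul_sum]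
      apply sum_congr rfl
      intro y _
      rw [psi, Complex.ofReal_mul, hre]
      push_cast
      ring
    rw [hlin]
    have hnc : (n : ℂ) ≠ 0 := by exact_mod_cast NeZero.ne n
    have hBc : ((B : ℝ) : ℂ) ≠ 0 := by exact_mod_cast hb.ne'
    push_cast at hBc ⊢
    field_simp
  have hsum : ∑ j, (sz (c j * x ^ 2) : ℂ) * gg c v j x = ((√(n * DD c x) : ℝ) : ℂ) * v x := by
    simp only [gg]
    have e : ∀ j, (sz (c j * x ^ 2) : ℂ) *
        (((√n * (sz (c j * x ^ 2) / √(DD c x)) : ℝ) : ℂ) * v x) =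
        ((√n / √(DD c x) * sz (c j * x ^ 2) ^ 2 : ℝ) : ℂ) * v x := by
      intro j
      push_cast
      ring
    simp only [e]
    rw [← sum_mul, ← Complex.ofReal_sum, ← mul_sum]
    congr 2
    change √n / √(DD c x) * DD c x = _
    rw [Real.sqrt_mul hn0.le]
    have h1 : √(DD c x) * √(DD c x) = DD c x := Real.mul_self_sqrt hDx.le
    have h2 : √(DD c x) ≠ 0 := (Real.sqrt_pos.mpr hDx).ne'
    calc √n / √(DD c x) * DD c x = √n / √(DD c x) * (√(DD c x) * √(DD c x)) := by rw [h1]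
      _ = _ := by field_simp
  simp only [hacf]
  rw [sum_add_distrib, ← mul_sum, hsum]
  change r0 x + (B : ℂ) * (_ + quad c (psi c B v) x) = 0
  have h3 : ((√(n * DD c x) : ℝ) : ℂ) ≠ 0 := by
    have : √(n * DD c x) ≠ 0 := (Real.sqrt_pos.mpr (by positivity)).ne'
    exact_mod_cast this
  have h4 : ((√(n * DD c x) : ℝ) : ℂ) * v x = r0 x + (B : ℝ) * quad c (psi c B v) x := by
    rw [hvx x]
    field_simp
  rw [h4]
  have hBc : ((B : ℝ) : ℂ) ≠ 0 := by exact_mod_cast hb.ne'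
  push_cast at hBc ⊢
  field_simp
  ring

end Pool.Agent.H14.U
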