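import Pool.Agent.H26.U.Ez

/-!
# Project U, FIX: the linear part and the quadratic part
-/

namespace Pool.Agent.H14.U

open Pool.Agent.H26.U Finset

/-- the remainder of the exponential -/
noncomputable def rem (a : ℝ) : ℂ := Complex.exp (Complex.I * (a : ℂ)) - 1 - Complex.I * (a : ℂ)

theorem rem_zero : rem 0 = 0 := by simp [rem]

theorem rem_neg (a : ℝ) : rem (-a) = star (rem a) := by
  have h : ∀ z : ℂ, star z = (starRingEnd ℂ) z := fun z => rfl
  simp only [rem, h, map_sub, map_mul, map_one, ← Complex.exp_conj, Complex.conj_I,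
    Complex.conj_ofReal, Complex.ofReal_neg]
  ring_nf

theorem rem_lip (a b : ℝ) : ‖rem a - rem b‖ ≤ |a - b| * (|a| + |b|) := by
  have hd : ∀ t ∈ Set.uIcc b a, HasDerivWithinAt rem
      (Complex.I * (Complex.exp (Complex.I * (t : ℂ)) - 1)) (Set.uIcc b a) t := by
    intro t _
    apply HasDerivAt.hasDerivWithinAt
    have h1 : HasDerivAt (fun t : ℝ => (t : ℂ)) 1 t := Complex.ofRealCLM.hasDerivAt
    have h2 : HasDerivAt (fun t : ℝ => Complex.I * (t : ℂ)) (Complex.I * 1) t := h1.const_mul _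
    have h3 := (h2.cexp.sub_const 1).sub h2
    have e : rem = ((fun x : ℝ => Complex.exp (Complex.I * (x : ℂ)) - 1) -
        fun t : ℝ => Complex.I * (t : ℂ)) := by
      funext a
      simp [rem]
    have e2 : Complex.I * (Complex.exp (Complex.I * (t : ℂ)) - 1) =
        Complex.exp (Complex.I * (t : ℂ)) * (Complex.I * 1) - Complex.I * 1 := by ring
    rw [e, e2]
    exact h3
  have hb : ∀ t ∈ Set.uIcc b a, ‖Complex.I * (Complex.exp (Complex.I * (t : ℂ)) - 1)‖ ≤
      |a| + |b| := by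
    intro t ht
    rw [norm_mul, Complex.norm_I, one_mul]
    refine Real.norm_exp_I_mul_ofReal_sub_one_le.trans ?_
    rw [Real.norm_eq_abs]
    rw [Set.mem_uIcc] at ht
    have ha := abs_nonneg a
    have hb := abs_nonneg b
    rcases ht with ⟨h1, h2⟩ | ⟨h1, h2⟩
    · rw [abs_le]
      constructor
      · have := neg_abs_le b; linarith
      · have := le_abs_self a; linarith
    · rw [abs_le]
      constructor
      · have := neg_abs_le a; linarith
      · have := le_abs_self b; linarith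
  have h := Convex.norm_image_sub_le_of_norm_hasDerivWithin_le hd hb (convex_uIcc b a)
    Set.left_mem_uIcc Set.right_mem_uIcc
  rw [Real.norm_eq_abs] at h
  linarith [h, mul_comm (|a| + |b|) |a - b|]

variable {n : ℕ} [NeZero n]

omit [NeZero n] in
theorem isUnit_two (hn : Odd n) : IsUnit (2 : ZMod n) := by
  have : ((2 : ℕ) : ZMod n) = 2 := by norm_num
  rw [← this, ZMod.isUnit_iff_coprime]
  exact (Nat.coprime_two_left).mpr hn

/-- Parseval -/
theorem parseval (a : ZMod n) (ha : IsUnit a) (g : ZMod n → ℂ) :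
    ∑ y, ‖∑ x, g x * ez (a * x * y)‖ ^ 2 = n * ∑ x, ‖g x‖ ^ 2 := by
  have hsq : ∀ z : ℂ, ((‖z‖ ^ 2 : ℝ) : ℂ) = z * star z := by
    intro z
    rw [Complex.star_def, Complex.mul_conj, Complex.normSq_eq_norm_sq]
  have h : ((∑ y, ‖∑ x, g x * ez (a * x * y)‖ ^ 2 : ℝ) : ℂ) = ((n * ∑ x, ‖g x‖ ^ 2 : ℝ) : ℂ) := by
    rw [Complex.ofReal_sum, Complex.ofReal_mul, Complex.ofReal_sum]
    simp only [hsq, star_sum, star_mul']
    have e : ∀ y : ZMod n, (∑ x, g x * ez (a * x * y)) * ∑ x', star (g x') * star (ez (a * x' * y)) =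
        ∑ x, ∑ x', g x * star (g x') * ez (a * (x - x') * y) := by
      intro y
      rw [sum_mul_sum]
      apply sum_congr rfl
      intro x _
      apply sum_congr rfl
      intro x' _
      rw [show a * (x - x') * y = a * x * y - a * x' * y by ring, ez_sub]
      ring
    simp only [e]
    rw [sum_comm]
    rw [mul_sum]
    apply sum_congr rfl
    intro x _
    rw [sum_comm]
    have e2 : ∀ x' : ZMod n, ∑ y, g x * star (g x') * ez (a * (x - x') * y) =
        if x' = x then g x * star (g x) * n else 0 := by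
      intro x'
      rw [← mul_sum, sum_ez_mul]
      by_cases hx : x' = x
      · subst hx
        simp
      · rw [if_neg hx, if_neg, mul_zero]
        intro h0
        apply hx
        rw [ha.mul_right_eq_zero] at h0
        exact (sub_eq_zero.mp h0).symm
    simp only [e2]
    rw [sum_ite_eq' univ x, if_pos (mem_univ x)]
    push_cast
    ring
  exact_mod_cast h

/-- inversion -/
theorem invert (a : ZMod n) (ha : IsUnit a) (g : ZMod n → ℂ) (x0 : ZMod n) :
    ∑ y, (∑ x, g x * ez (-(a * x * y))) * ez (a * x0 * y) = n * g x0 := by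
  have e : ∀ y : ZMod n, (∑ x, g x * ez (-(a * x * y))) * ez (a * x0 * y) =
      ∑ x, g x * ez (a * (x0 - x) * y) := by
    intro y
    rw [sum_mul]
    apply sum_congr rfl
    intro x _
    rw [mul_assoc, ← ez_add]
    congr 2
    ring
  simp only [e]
  rw [sum_comm]
  have e2 : ∀ x : ZMod n, ∑ y, g x * ez (a * (x0 - x) * y) = if x = x0 then g x0 * n else 0 := by
    intro x
    rw [← mul_sum, sum_ez_mul]
    by_cases hx : x = x0
    · subst hx
      simp
    · rw [if_neg hx, if_neg, mul_zero]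
      intro h0
      apply hx
      rw [ha.mul_right_eq_zero] at h0
      exact (sub_eq_zero.mp h0).symm
  simp only [e2]
  rw [sum_ite_eq' univ x0, if_pos (mem_univ x0)]
  ring

/-- the quadratic part -/
noncomputable def quad {J : ℕ} (c : Fin J → ZMod n) (ψ : Fin J → ZMod n → ℝ) (x : ZMod n) : ℂ :=
  ∑ j, ∑ y, ez (c j * (2 * x * y - x ^ 2)) * rem (ψ j y - ψ j (y - x))

theorem quad_zero {J : ℕ} (c : Fin J → ZMod n) (x : ZMod n) :
    quad c (fun _ _ => 0) x = 0 := by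
  simp [quad, rem_zero]

theorem quad_neg {J : ℕ} (c : Fin J → ZMod n) (ψ : Fin J → ZMod n → ℝ) (x : ZMod n) :
    quad c ψ (-x) = star (quad c ψ x) := by
  unfold quad
  rw [star_sum]
  apply sum_congr rfl
  intro j _
  rw [star_sum]
  apply Fintype.sum_equiv (Equiv.addRight x)
  intro y
  simp only [Equiv.coe_addRight]
  rw [star_mul', ← ez_neg, ← rem_neg]
  congr 2
  · ring
  · rw [show y + x - x = y by ring, show y - -x = y + x by ring]
    ring

/-- squares of the differences -/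
theorem sq_diff (ψ : ZMod n → ℝ) (x : ZMod n) :
    ∑ y, (ψ y - ψ (y - x)) ^ 2 ≤ 4 * ∑ y, ψ y ^ 2 := by
  have h1 : ∑ y, ψ (y - x) ^ 2 = ∑ y, ψ y ^ 2 :=
    Fintype.sum_equiv (Equiv.subRight x) _ _ (fun y => by simp)
  have h2 : ∑ y, (ψ y - ψ (y - x)) ^ 2 ≤ ∑ y, (2 * ψ y ^ 2 + 2 * ψ (y - x) ^ 2) := by
    apply sum_le_sum
    intro y _
    nlinarith [sq_nonneg (ψ y + ψ (y - x))]
  rw [sum_add_distrib, ← mul_sum, ← mul_sum, h1] at h2
  linarith

/-- the Lipschitz estimate of the quadratic part -/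
theorem quad_lip {J : ℕ} (c : Fin J → ZMod n) (ψ ψ' : Fin J → ZMod n → ℝ) (x : ZMod n)
    {a b d : ℝ} (ha : 0 ≤ a) (hb : 0 ≤ b) (hd : 0 ≤ d)
    (h1 : ∑ j, ∑ y, ψ j y ^ 2 ≤ a ^ 2) (h2 : ∑ j, ∑ y, ψ' j y ^ 2 ≤ b ^ 2)
    (h3 : ∑ j, ∑ y, (ψ j y - ψ' j y) ^ 2 ≤ d ^ 2) :
    ‖quad c ψ x - quad c ψ' x‖ ≤ 4 * d * (a + b) := by
  set δ : Fin J × ZMod n → ℝ := fun p => ψ p.1 p.2 - ψ p.1 (p.2 - x) with hδ
  set δ' : Fin J × ZMod n → ℝ := fun p => ψ' p.1 p.2 - ψ' p.1 (p.2 - x) with hδ'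
  have k1 : ∑ p, δ p ^ 2 ≤ (2 * a) ^ 2 := by
    rw [Fintype.sum_prod_type]
    calc _ ≤ ∑ j, 4 * ∑ y, ψ j y ^ 2 := sum_le_sum fun j _ => sq_diff (ψ j) x
      _ = 4 * ∑ j, ∑ y, ψ j y ^ 2 := by rw [mul_sum]
      _ ≤ _ := by nlinarith
  have k2 : ∑ p, δ' p ^ 2 ≤ (2 * b) ^ 2 := by
    rw [Fintype.sum_prod_type]
    calc _ ≤ ∑ j, 4 * ∑ y, ψ' j y ^ 2 := sum_le_sum fun j _ => sq_diff (ψ' j) x
      _ = 4 * ∑ j, ∑ y, ψ' j y ^ 2 := by rw [mul_sum]
      _ ≤ _ := by nlinarith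
  have k3 : ∑ p, (δ p - δ' p) ^ 2 ≤ (2 * d) ^ 2 := by
    rw [Fintype.sum_prod_type]
    calc _ = ∑ j, ∑ y, ((ψ j y - ψ' j y) - (ψ j (y - x) - ψ' j (y - x))) ^ 2 := by
          apply sum_congr rfl
          intro j _
          apply sum_congr rfl
          intro y _
          simp only [hδ, hδ']
          ring
      _ ≤ ∑ j, 4 * ∑ y, (ψ j y - ψ' j y) ^ 2 :=
          sum_le_sum fun j _ => sq_diff (fun y => ψ j y - ψ' j y) x
      _ = 4 * ∑ j, ∑ y, (ψ j y - ψ' j y) ^ 2 := by rw [mul_sum]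
      _ ≤ _ := by nlinarith
  have cs : ∀ (f g : Fin J × ZMod n → ℝ) (u v : ℝ), 0 ≤ u → 0 ≤ v → ∑ p, f p ^ 2 ≤ u ^ 2 →
      ∑ p, g p ^ 2 ≤ v ^ 2 → ∑ p, |f p| * |g p| ≤ u * v := by
    intro f g u v hu hv hf hg
    have h := sum_mul_sq_le_sq_mul_sq univ (fun p => |f p|) (fun p => |g p|)
    simp only [sq_abs] at h
    apply le_of_sq_le_sq _ (mul_nonneg hu hv)
    calc _ ≤ (∑ p, f p ^ 2) * ∑ p, g p ^ 2 := h
      _ ≤ u ^ 2 * v ^ 2 := mul_le_mul hf hg (sum_nonneg fun _ _ => sq_nonneg _) (sq_nonneg _)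
      _ = _ := by ring
  have e : quad c ψ x - quad c ψ' x = ∑ p : Fin J × ZMod n,
      ez (c p.1 * (2 * x * p.2 - x ^ 2)) * (rem (δ p) - rem (δ' p)) := by
    rw [Fintype.sum_prod_type]
    unfold quad
    rw [← sum_sub_distrib]
    apply sum_congr rfl
    intro j _
    rw [← sum_sub_distrib]
    apply sum_congr rfl
    intro y _
    ring
  rw [e]
  calc _ ≤ ∑ p : Fin J × ZMod n,
        ‖ez (c p.1 * (2 * x * p.2 - x ^ 2)) * (rem (δ p) - rem (δ' p))‖ := norm_sum_le _ _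
    _ ≤ ∑ p : Fin J × ZMod n, (|δ p - δ' p| * |δ p| + |δ p - δ' p| * |δ' p|) := by
        apply sum_le_sum
        intro p _
        rw [norm_mul, norm_ez, one_mul, ← mul_add]
        exact rem_lip _ _
    _ = (∑ p, |δ p - δ' p| * |δ p|) + ∑ p, |δ p - δ' p| * |δ' p| := sum_add_distrib
    _ ≤ 2 * d * (2 * a) + 2 * d * (2 * b) := by
        apply add_le_add
        · exact cs _ _ _ _ (by linarith) (by linarith) k3 k1
        · exact cs _ _ _ _ (by linarith) (by linarith) k3 k2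
    _ = 4 * d * (a + b) := by ring

end Pool.Agent.H14.U
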